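import Mathlib

open Set Ordinal Order
open Cardinal hiding univ

namespace Pool.Agent.Results.MP_66ab92_lc.CofinVariants

variable {X : Type}

def Down (I : Set (Set X)) : Prop := ∀ a ∈ I, ∀ b ⊆ a, b ∈ I

def IsIdeal (I : Set (Set X)) : Prop := ∅ ∈ I ∧ Down I ∧ ∀ a ∈ I, ∀ b ∈ I, a ∪ b ∈ I

def IsSigma (I : Set (Set X)) : Prop := IsIdeal I ∧ ∀ a : ℕ → Set X, (∀ n, a n ∈ I) → ⋃ n, a n ∈ I

def BorelSigma (I : Set (Set (ℕ → Bool))) : Prop :=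
  IsSigma I ∧ ∀ a ∈ I, ∃ b ∈ I, @MeasurableSet _ (borel (ℕ → Bool)) b ∧ a ⊆ b

def Chain (I : Set (Set X)) (γ : Ordinal.{0}) (J : Ordinal.{0} → Set (Set X)) : Prop :=
  IsSuccLimit γ ∧ I = ⋃ α ∈ Iio γ, J α ∧ ∀ α β, α < β → β < γ → J α ⊂ J β

noncomputable def cofin (I : Set (Set X)) : WithTop Ordinal.{0} :=
  sInf {c | ∃ γ J, Chain I γ J ∧ (∀ α < γ, IsSigma (J α)) ∧ c = (γ : Ordinal)}

noncomputable def cofinStar (I : Set (Set X)) : WithTop Ordinal.{0} :=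
  sInf {c | ∃ γ J, Chain I γ J ∧ (∀ α < γ, Down (J α)) ∧ c = (γ : Ordinal)}

noncomputable def cofinPlus (I : Set (Set X)) : WithTop Ordinal.{0} :=
  sInf {c | ∃ γ J, Chain I γ J ∧ (∀ α < γ, IsSigma (J α)) ∧ (∀ x, {x} ∈ J 0) ∧ c = (γ : Ordinal)}

noncomputable def add (I : Set (Set X)) : Cardinal.{0} := sInf {c | ∃ A ⊆ I, ⋃₀ A ∉ I ∧ c = #A}

lemma part_c : ∃ I, BorelSigma I ∧ (∀ x, {x} ∈ I) ∧ cofin I < cofinPlus I := by
  obtain ⟨p⟩ : Nonempty (Iio (ω₁ : Ordinal.{0}) ↪ (ℕ → Bool)) := by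
    rw [← lift_mk_le', Cardinal.mk_Iio_ordinal, card_omega]
    simpa using aleph_one_le_continuum
  refine ⟨{s | s.Countable}, ⟨⟨⟨countable_empty, fun a ha b hb => ha.mono hb,
    fun a ha b hb => ha.union hb⟩, fun a ha => countable_iUnion ha⟩, fun a ha => ⟨a, ha, ?_,
    Subset.rfl⟩⟩, fun x => countable_singleton x, lt_of_le_of_lt (sInf_le ⟨ω₁,
    fun α => {s | s.Countable ∧ ∀ β : Iio ω₁, α ≤ β → p β ∉ s}, ⟨isSuccLimit_omega 1, ?_,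
    fun α β h1 h2 => ⟨fun s hs => ⟨hs.1, fun δ e => hs.2 δ (h1.le.trans e)⟩, fun e => ?_⟩⟩,
    fun α _ => ⟨⟨⟨countable_empty, by simp⟩, fun a ha b hb => ⟨ha.1.mono hb,
    fun β e k => ha.2 β e (hb k)⟩, fun a ha b hb => ⟨ha.1.union hb.1,
    fun β e k => k.elim (ha.2 β e) (hb.2 β e)⟩⟩, fun a ha => ⟨countable_iUnion fun n => (ha n).1,
    fun β e k => (mem_iUnion.1 k).elim fun n => (ha n).2 β e⟩⟩, rfl⟩)
    (lt_of_lt_of_le (WithTop.coe_lt_top _) (le_sInf ?_))⟩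
  · let := borel (ℕ → Bool)
    have : BorelSpace (ℕ → Bool) := ⟨rfl⟩
    exact Set.Countable.measurableSet ha
  · ext s
    simp only [mem_iUnion, mem_ofPred_eq]
    refine ⟨fun hs => ?_, fun ⟨_, _, h⟩ => h.1⟩
    have := (hs.preimage p.injective).to_subtype
    refine ⟨succ (⨆ β : p ⁻¹' s, β.1.1), (isSuccLimit_omega 1).succ_lt
      (iSup_lt_omega_one fun β => β.1.2), hs, fun β e k => ?_⟩
    exact (succ_le_iff.1 e).not_ge (le_ciSup (f := fun β : p ⁻¹' s => β.1.1)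
      ⟨ω₁, by rintro _ ⟨δ, rfl⟩; exact δ.1.2.le⟩ ⟨β, k⟩)
  · refine (e (a := {p ⟨α, h1.trans h2⟩}) ⟨countable_singleton _, fun δ k l => ?_⟩).2
      ⟨α, h1.trans h2⟩ le_rfl rfl
    rw [p.injective l] at k
    exact h1.not_ge k
  · rintro _ ⟨γ, J, ⟨h1, h2, h3⟩, h4, h5, rfl⟩
    refine ((h3 0 _ (lt_succ 0) (h1.succ_lt h1.pos)).2 fun s hs => ?_).elim
    have : s.Countable := h2.ge (mem_biUnion (h1.succ_lt h1.pos) hs)
    rcases s.eq_empty_or_nonempty with rfl | hn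
    · exact (h4 0 h1.pos).1.1
    obtain ⟨f, rfl⟩ := this.exists_eq_range hn
    simpa using (h4 0 h1.pos).2 (fun n => {f n}) fun n => h5 _

lemma small {I : Set (Set X)} {C : Ordinal.{0} → Set X} {α : Ordinal.{0}} (h : α < (add I).ord)
    (hC : ∀ β < α, C β ∈ I) : ⋃₀ (C '' Iio α) ∈ I := by
  by_contra hc
  have h1 : add I ≤ #(C '' Iio α) := csInf_le' ⟨_, image_subset_iff.2 hC, hc, rfl⟩
  have h2 := mk_image_le_lift (f := C) (s := Iio α)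
  rw [Cardinal.mk_Iio_ordinal, Cardinal.lift_lift, Cardinal.lift_le] at h2
  exact (lt_ord.1 h).not_ge (h1.trans h2)

lemma part_a {I : Set (Set X)} (hI : IsIdeal I) (hn : ⋃₀ I ∉ I) :
    cofinStar I = ((add I).ord : Ordinal) := by
  obtain ⟨A, a1, a2, a3⟩ : add I ∈ {c | ∃ A ⊆ I, ⋃₀ A ∉ I ∧ c = #A} :=
    csInf_mem ⟨_, I, Subset.rfl, hn, rfl⟩
  have hinf : ℵ₀ ≤ add I := by
    rw [a3, aleph0_le_mk_iff, infinite_coe_iff]
    intro hf
    refine a2 (Set.Finite.induction_on_subset A hf (by simpa using hI.1) fun h1 _ _ h2 => ?_)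
    rw [sUnion_insert]
    exact hI.2.2 _ (a1 h1) _ h2
  apply le_antisymm
  · obtain ⟨e⟩ : Nonempty (A ↪ Iio (add I).ord) := by
      rw [← lift_mk_le', Cardinal.mk_Iio_ordinal, card_ord, a3]
      simp
    have : ∀ α : Ordinal.{0}, ∃ s ∈ I, ∀ x : A, (e x).1 = α → s = x := fun α => by
      by_cases h : ∃ x : A, (e x).1 = α
      · obtain ⟨x, rfl⟩ := h
        exact ⟨x, a1 x.2, fun y k => by rw [e.injective (Subtype.ext k)]⟩
      · exact ⟨∅, hI.1, fun y k => (h ⟨y, k⟩).elim⟩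
    choose a b1 b2 using this
    have : ∀ Y : Set X, ∃ s ∈ I, Y ∈ I → ¬ s ⊆ Y := fun Y => by
      by_contra hc
      push Not at hc
      exact a2 (hI.2.1 _ (hc _ hI.1).1 _ (sUnion_subset fun s hs => (hc s (a1 hs)).2))
    choose g g1 g2 using this
    let C : Ordinal.{0} → Set X := WellFoundedLT.fix fun α ih => a α ∪ g (⋃ β : Iio α, ih β β.2)
    have hC : ∀ α, C α = a α ∪ g (⋃₀ (C '' Iio α)) := fun α => by
      rw [sUnion_image, biUnion_eq_iUnion]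
      exact WellFoundedLT.fix_eq _ α
    have c1 : ∀ α, C α ∈ I := fun α => hC α ▸ hI.2.2 _ (b1 _) _ (g1 _)
    refine sInf_le ⟨_, fun α => {Y ∈ I | ∃ β ≤ α, ¬ C β ⊆ Y}, ⟨isSuccLimit_ord hinf, ?_,
      fun α β h1 h2 => ⟨fun Y ⟨y1, δ, y2, y3⟩ => ⟨y1, δ, y2.trans h1.le, y3⟩, fun k => ?_⟩⟩,
      fun α _ Y ⟨y1, δ, y2, y3⟩ Z hZ => ⟨hI.2.1 _ y1 _ hZ, δ, y2, fun k => y3 (k.trans hZ)⟩, rfl⟩
    · refine Subset.antisymm (fun Y hY => ?_) (iUnion₂_subset fun _ _ => sep_subset _ _)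
      obtain ⟨s, s1, s2⟩ : ∃ s ∈ A, ¬ s ⊆ Y := by
        by_contra hc
        push Not at hc
        exact a2 (hI.2.1 _ hY _ (sUnion_subset hc))
      refine mem_biUnion (e ⟨s, s1⟩).2 ⟨hY, _, le_rfl, fun k => s2 ?_⟩
      rw [hC, b2 _ ⟨s, s1⟩ rfl] at k
      exact subset_union_left.trans k
    · have u := small h2 fun δ _ => c1 δ
      obtain ⟨-, δ, y2, y3⟩ := k ⟨u, β, le_rfl, fun l => g2 _ u
        (subset_union_right.trans ((hC β).ge.trans l))⟩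
      exact y3 (subset_sUnion_of_mem ⟨δ, y2.trans_lt h1, rfl⟩)
  · refine le_sInf ?_
    rintro _ ⟨γ, J, ⟨h1, h2, h3⟩, h4, rfl⟩
    refine WithTop.coe_le_coe.2 (not_lt.1 fun hc => ?_)
    have : ∀ α, ∃ s, α < γ → s ∈ J (succ α) ∧ s ∉ J α := fun α => by
      by_cases h : α < γ
      · exact (exists_of_ssubset (h3 α _ (lt_succ α) (h1.succ_lt h))).imp fun s k _ => k
      · exact ⟨∅, fun k => (h k).elim⟩
    choose s hs using this
    obtain ⟨δ, d1, d2⟩ := mem_iUnion₂.1 (h2.le (small (C := s) hc fun β k =>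
      h2.ge (mem_biUnion (h1.succ_lt k) (hs β k).1)))
    exact (hs δ d1).2 (h4 δ d1 _ d2 _ (subset_sUnion_of_mem ⟨δ, d1, rfl⟩))

theorem result : (∃ I, BorelSigma I ∧ (∀ x, {x} ∈ I) ∧ cofin I < cofinPlus I) ∧
    ∀ (X : Type) (I : Set (Set X)), IsIdeal I → ⋃₀ I ∉ I → cofinStar I = ((add I).ord : Ordinal) :=
  ⟨part_c, fun _ _ => part_a⟩

end Pool.Agent.Results.MP_66ab92_lc.CofinVariants
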